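import Pool.Agent.MP_542436_nt.H2.LineA

set_option autoImplicit false

namespace Pool.Agent.MP_542436_nt.H2

open Polynomial NumberField Finset Pool.Agent.MP_542436_nt.Sp

open Classical in
/-- The right side of the bound on a line. -/
noncomputable def tot (R : Rg) {K : Type} [Field K] (θ ω : K) (X P x1 x2 : ℝ) : ℝ :=
  X ^ R.l0 P x1 x2 + (if Bad0 R.d θ ω then X ^ R.l1 P x1 x2 0 else 0) +
    ∑ i : Fin 3, if Bad1 R.d θ ω (X ^ lev i) then X ^ R.l1 P x1 x2 (lev i) else 0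

section
variable {R : Rg} {K : Type} [Field K] {θ ω : K} {X P x1 x2 : ℝ}

theorem tot0 (hX : 0 < X) : X ^ R.l0 P x1 x2 ≤ tot R θ ω X P x1 x2 := by
  unfold tot
  rw [add_assoc]
  refine le_add_of_nonneg_right (add_nonneg ?_ (sum_nonneg fun i _ => ?_)) <;>
    split_ifs <;> positivity

theorem tot1 (hX : 0 < X) (h : Bad0 R.d θ ω) : X ^ R.l1 P x1 x2 0 ≤ tot R θ ω X P x1 x2 := by
  unfold tot
  rw [if_pos h]
  refine le_add_of_le_of_nonneg (le_add_of_nonneg_left (by positivity))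
    (sum_nonneg fun i _ => ?_)
  split_ifs <;> positivity

theorem tot2 (hX : 0 < X) (i : Fin 3) (h : Bad1 R.d θ ω (X ^ lev i)) :
    X ^ R.l1 P x1 x2 (lev i) ≤ tot R θ ω X P x1 x2 := by
  classical
  unfold tot
  refine le_add_of_nonneg_of_le (add_nonneg (by positivity) (by split_ifs <;> positivity)) ?_
  refine le_trans ?_ (single_le_sum (f := fun i : Fin 3 =>
    if Bad1 R.d θ ω (X ^ lev i) then X ^ R.l1 P x1 x2 (lev i) else 0) (fun j _ => ?_) (mem_univ i))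
  · simp only [if_pos h, le_refl]
  · split_ifs <;> positivity

theorem pen_big {g : ℤ[X][X]} {c0 y : ℝ} (hX : 1 < X) (hc : c0 ≤ 1) (hx : x2 ≤ x1)
    (hd : Dg 5 3 g) (h : ¬ ∀ i k, |((cf g i k : ℤ) : ℝ)| ≤ X ^ y) :
    PenOk g 4 2 2 c0 X P x1 x2 (2 * P - 2 - 4 * x2 - y) := by
  push Not at h
  obtain ⟨i, k, h⟩ := h
  have hXp : 0 < X := by linarith
  have hne : cf g i k ≠ 0 := by
    intro h0
    rw [h0] at h
    simp only [Int.cast_zero, abs_zero] at h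
    exact absurd h (not_lt.2 (by positivity))
  have hi : i ≤ 4 := Nat.lt_succ_iff.1 (hd i k hne).1
  refine Or.inr ⟨i, k, hi, ?_⟩
  have e : ((2 : ℕ) : ℝ) * P - ((2 : ℕ) : ℝ) - (2 * P - 2 - 4 * x2 - y) = y + x2 * (4 : ℕ) := by
    push_cast
    ring
  rw [e, Real.rpow_add hXp, Real.rpow_mul_natCast hXp.le]
  have h1 : X ^ x2 ≤ X ^ x1 := Real.rpow_le_rpow_of_exponent_le hX.le hx
  have h2 : (X ^ x2) ^ 4 ≤ (X ^ x1) ^ i * (X ^ x2) ^ (4 - i) := by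
    calc (X ^ x2) ^ 4 = (X ^ x2) ^ i * (X ^ x2) ^ (4 - i) := by
          rw [← pow_add]
          congr 1
          omega
      _ ≤ _ := by gcongr
  calc c0 * (X ^ y * (X ^ x2) ^ 4) ≤ X ^ y * (X ^ x2) ^ 4 :=
        mul_le_of_le_one_left (by positivity) hc
    _ ≤ |((cf g i k : ℤ) : ℝ)| * ((X ^ x1) ^ i * (X ^ x2) ^ (4 - i)) := by gcongr
    _ = _ := by ring

theorem pen_zero {g : ℤ[X][X]} {C t : ℝ} {m2 n2 r2 : ℕ} (hX : 1 < X) (hC : 1 ≤ C) (hr : r2 ≤ m2)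
    (h : ∃ i k, i ≤ m2 ∧ (X ^ t) ^ r2 * (X ^ x2) ^ (m2 - r2) ≤
      C * (|((cf g i k : ℤ) : ℝ)| * (X ^ x1) ^ i * (X ^ x2) ^ (m2 - i))) :
    PenOk g m2 n2 r2 (1 / C) X P x1 x2 (pen0 m2 n2 r2 P x1 x2 t) := by
  have hXp : 0 < X := by linarith
  unfold pen0
  rcases le_total (P - x1) (r2 * P - n2 - r2 * t - ((m2 : ℝ) - r2) * x2) with h1 | h1
  · exact Or.inl (by rw [min_eq_left h1])
  · rw [min_eq_right h1]
    obtain ⟨i, k, hi, h⟩ := h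
    refine Or.inr ⟨i, k, hi, ?_⟩
    have e : (r2 : ℝ) * P - n2 - (r2 * P - n2 - r2 * t - ((m2 : ℝ) - r2) * x2) =
        t * r2 + x2 * ((m2 - r2 : ℕ) : ℝ) := by
      rw [Nat.cast_sub hr]
      ring
    rw [e, Real.rpow_add hXp, Real.rpow_mul_natCast hXp.le, Real.rpow_mul_natCast hXp.le,
      one_div, inv_mul_le_iff₀ (by linarith)]
    exact h

end

theorem line (hB : BaseStmt) (hP : PlcStmt) (hF : FewDivStmt) (hPD : PDivStmt) (hL : LowStmt)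
    (hT : TrivStmt) (hS : SiegelStmt) (hN : NzStmt) (hH : HeightStmt) (hV : ValStmt)
    (hFa : FactorStmt) (hZ : ZeroStmt) (hC : CurveStmt) : LineStmt := by
  intro R K _ _ θ hθ hO hCe
  obtain ⟨η, M, m0, n0, r0, hη, hr0, hCe⟩ := hCe
  obtain ⟨Ct, Xt, hT⟩ := hT K R.d θ hθ 1
  obtain ⟨Ch, hCh, hH⟩ := hH K θ hθ.int (m0 + n0)
  obtain ⟨Cg, hCg, hG⟩ := fac_le hB hV m0 n0
  obtain ⟨Xp, hTop⟩ := top_poly hPD hS hV hθ m0 n0 r0 η hη hr0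
  obtain ⟨c', Xl, hL⟩ := hL K R.d θ hθ (m0 + n0) (3 * r0 + 1)
  obtain ⟨Cf, Xf, hF⟩ := hF K R.d θ hθ c'
  obtain ⟨Cc, Xc, hCc, hC⟩ := hC K R.d θ hθ M (m0 + n0) (3 * r0 + 1) η (1 / Ch) hη (by positivity)
  have he0 := hO.e0
  have hev : ∀ᶠ X : ℝ in Filter.atTop, 1 < X ∧ Xt ≤ X ∧ Xp ≤ X ∧ Xl ≤ X ∧ Xf ≤ X ∧ Xc ≤ X ∧
      Cg ≤ X ∧ Ch ≤ X ^ (R.e0 / 2) :=
    (Filter.eventually_gt_atTop 1).and ((Filter.eventually_ge_atTop _).and
      ((Filter.eventually_ge_atTop _).and ((Filter.eventually_ge_atTop _).and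
      ((Filter.eventually_ge_atTop _).and ((Filter.eventually_ge_atTop _).and
      ((Filter.eventually_ge_atTop _).and
      ((tendsto_rpow_atTop (by positivity)).eventually_ge_atTop _)))))))
  obtain ⟨X0, hX0⟩ := Filter.eventually_atTop.1 hev
  set C1 : ℝ := |Cf| + Cc + 2 * n0 with hC1
  have hC10 : 0 ≤ C1 := by positivity
  refine ⟨|Ct| + (m0 + n0) * C1, X0, by positivity, ?_⟩
  intro X hX P x1 x2 hReg ω ζ0 ζ1 hirr hRep
  obtain ⟨hX1, hXt, hXp, hXl, hXf, hXc, hXg, hXh⟩ := hX0 X hX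
  have hX0' : 0 < X := by linarith
  obtain ⟨hP1, hP3, hx2, hx1, hZ1⟩ := reg_facts hO hReg
  have hx21 := hReg.x21
  change FewPt _ ((|Ct| + (m0 + n0) * C1) * tot R θ ω X P x1 x2)
  have htot : 0 ≤ tot R θ ω X P x1 x2 := le_trans (by positivity) (tot0 hX0')
  have hA : 1 ≤ X ^ x1 := Real.one_le_rpow hX1.le (by linarith)
  have hBB : 1 ≤ X ^ x2 := Real.one_le_rpow hX1.le hx2
  have hp0 : X ^ ((3 : ℝ) / 2) ≤ X ^ P := Real.rpow_le_rpow_of_exponent_le hX1.le hP1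
  have hT1 : X ^ (R.Z P + R.e0 / 2) ≤ X ^ (1 : ℕ) := by
    rw [← Real.rpow_natCast]
    exact Real.rpow_le_rpow_of_exponent_le hX1.le (by push_cast; linarith)
  have htriv : ∀ l : ℝ, x1 + x2 ≤ l → X ^ l ≤ tot R θ ω X P x1 x2 →
      FewPt (Inc θ ω X (X ^ x1) (X ^ x2) (X ^ P))
        ((|Ct| + (m0 + n0) * C1) * tot R θ ω X P x1 x2) := by
    intro l h1 h2
    refine few_mono (fun _ h => h) ?_ (hT X hXt ω ζ0 ζ1 _ _ _ _ hA hBB hT1 hRep hirr hp0)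
    rw [← Real.rpow_add hX0']
    have h3 : X ^ (x1 + x2) ≤ tot R θ ω X P x1 x2 :=
      (Real.rpow_le_rpow_of_exponent_le hX1.le h1).trans h2
    calc Ct * X ^ (x1 + x2) ≤ |Ct| * X ^ (x1 + x2) := by gcongr; exact le_abs_self _
      _ ≤ |Ct| * tot R θ ω X P x1 x2 := by gcongr
      _ ≤ _ := by gcongr; exact le_add_of_nonneg_right (by positivity)
  rcases hCe P x1 x2 hReg with h | ⟨hl0, hTo, h7, hcov⟩
  · exact htriv _ h (tot0 hX0')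
  by_cases hgen : Gen ω
  swap
  · rcases h7 with h7 | h7
    · exact absurd (hP.gen K ω (hθ.rk.trans h7) hirr) hgen
    · exact htriv _ h7 (tot1 hX0' (Or.inl hgen))
  have hone : 1 ≤ tot R θ ω X P x1 x2 := (Real.one_le_rpow hX1.le hl0).trans (tot0 hX0')
  obtain ⟨f, hf0, hfd, hfc, hfv⟩ := hTop X hXp P x1 x2 _ hx2 hx21 hP3 (by linarith) hTo ω ζ0 ζ1
    (rep_mono hRep (Real.rpow_le_rpow_of_exponent_le hX1.le (by linarith)))
  obtain ⟨T', ζ0', ζ1', hRep', hT', hH⟩ := hH _ _ _ ω ζ0 ζ1 (by positivity)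
    (Real.rpow_le_rpow_of_exponent_le hX1.le hx21) hRep
  have hAT : X ^ x1 ≤ T' := le_trans
    (le_mul_of_one_le_left (by positivity) (one_le_house_of_isIntegral hRep'.i0 hRep'.ne)) hRep'.h0
  obtain ⟨t, rfl⟩ : ∃ t : ℝ, T' = X ^ t :=
    ⟨Real.logb X T', (Real.rpow_logb hX0' hX1.ne' (by linarith)).symm⟩
  have ht1 : x1 ≤ t := (Real.rpow_le_rpow_left_iff hX1).1 hAT
  have ht2 : t ≤ R.Z P + R.e0 := by
    refine (Real.rpow_le_rpow_left_iff hX1).1 (hT'.trans ?_)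
    rw [show R.Z P + R.e0 = R.e0 / 2 + (R.Z P + R.e0 / 2) by ring, Real.rpow_add hX0' (R.e0 / 2)]
    gcongr
  obtain ⟨L, hLc, hLi, hLv⟩ := hFa m0 n0 f hf0 hfd
  have hval : ∀ (m n : ℕ) (g : ℤ[X][X]) (Q : Pt K), Dg (m + 1) (n + 1) g →
      Inc θ ω X (X ^ x1) (X ^ x2) (X ^ P) Q → (Q.val m n g = 0 ↔
        (up ℚ g).evalEval ((Q.x : ℚ) / Q.y) ((Q.a : ℚ) / Q.b) = 0) := by
    intro m n g Q hd hQ
    have hy : (Q.y : ℚ) ≠ 0 := by exact_mod_cast hQ.y0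
    have hb : (Q.b : ℚ) ≠ 0 := by exact_mod_cast hQ.b0
    have h1 := hB.hval_eq ℚ m n g Q.x Q.y Q.a Q.b hd hy hb
    constructor
    · intro h
      unfold Pt.val at h
      rw [h] at h1
      simpa [hy, hb] using h1
    · intro h
      rw [h, mul_zero] at h1
      exact_mod_cast h1
  refine few_mono (fun _ h => h) ?_ (few_union (N := C1 * tot R θ ω X P x1 x2) L
    (H' := fun g Q => Inc θ ω X (X ^ x1) (X ^ x2) (X ^ P) Q ∧ Q.val (dS g) g.natDegree g = 0)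
    (fun Q hQ => ?_) fun g hg => ?_)
  · have h1 : (L.card : ℝ) ≤ m0 + n0 := by exact_mod_cast hLc
    calc (L.card : ℝ) * (C1 * tot R θ ω X P x1 x2)
        ≤ (m0 + n0) * (C1 * tot R θ ω X P x1 x2) := by gcongr
      _ = ((m0 + n0) * C1) * tot R θ ω X P x1 x2 := by ring
      _ ≤ _ := by gcongr; exact le_add_of_nonneg_left (abs_nonneg _)
  · obtain ⟨g, hg, h1⟩ := hLv _ _ ((hval m0 n0 f Q hfd hQ).1 (hfv Q hQ))
    exact ⟨g, hg, hQ, (hval _ _ g Q ((hB.dg_iff ℤ _ _ g).2 ⟨le_rfl, le_rfl⟩) hQ).2 h1⟩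
  obtain ⟨hirrg, hdvd⟩ := hLi g hg
  obtain ⟨hm, hn, hcf⟩ := hG f g _ hf0 hfd hdvd hfc
  have hg0 : g ≠ 0 := hirrg.ne_zero
  have hdg : Dg (dS g + 1) (g.natDegree + 1) g := (hB.dg_iff ℤ _ _ g).2 ⟨le_rfl, le_rfl⟩
  have hcf' : ∀ i k, |((cf g i k : ℤ) : ℝ)| ≤ X ^ (3 * r0 + 1) := fun i k => by
    refine (hcf i k).trans ?_
    rw [pow_succ']
    gcongr
  have hconst : ∀ c : ℝ, c ≤ C1 → c ≤ C1 * tot R θ ω X P x1 x2 := fun c hc =>
    hc.trans (le_mul_of_one_le_right hC10 hone)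
  by_cases hs : dS g = 0
  · refine few_mono (fun Q hQ => ⟨hQ.1.sq.cop, hQ.1.b0, (hval _ _ g Q hdg hQ.1).1 hQ.2⟩)
      (hconst _ ?_) (few_flat hB hg0 hs)
    have h1 : (g.natDegree : ℝ) ≤ n0 := by exact_mod_cast hn
    have h2 := abs_nonneg Cf
    linarith
  have hs1 : 1 ≤ dS g := Nat.one_le_iff_ne_zero.2 hs
  by_cases ho : Ord ω θ 2 (up K g)
  swap
  · obtain ⟨N, hN0, hN1, hN2⟩ := hL X hXl ω ζ0 ζ1 _ _ _ hA hBB
      (hT1.trans (pow_le_pow_right₀ hX1.le (by omega))) hRep (dS g) g.natDegree g (by omega)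
      (by omega) hdg hcf' ho
    refine few_mono (fun Q hQ => ⟨hQ.1.sq, hp0.trans hQ.1.p0, hN2 _ Q hQ.1 hQ.2⟩)
      (hconst _ ?_) (hF X hXf N hN0 hN1)
    have h1 := le_abs_self Cf
    have h2 : (0 : ℝ) ≤ n0 := by positivity
    linarith
  obtain ⟨r2, hr1, hr2⟩ := hB.ord_exact K ω θ _ (up_ne hB K hg0)
  have hr3 : 2 ≤ r2 := by
    by_contra hc
    exact hr2 (hB.ord_mono K ω θ 2 _ _ (by omega) ho)
  obtain ⟨hz1, hz2, hz3, hz4⟩ := hZ K R.d θ ω hθ hgen g r2 hirrg hs1 hr3 hr1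
  have hcrv : Crv θ ω g (dS g) g.natDegree r2 := ⟨hirrg, rfl, rfl, hr1, hr2⟩
  have hfin : ∀ l pen : ℝ, X ^ l ≤ tot R θ ω X P x1 x2 →
      Cov R.d M (dS g) g.natDegree r2 η P x1 x2 t l pen →
      PenOk g (dS g) g.natDegree r2 (1 / Ch) X P x1 x2 pen →
      FewPt (fun Q : Pt K => Inc θ ω X (X ^ x1) (X ^ x2) (X ^ P) Q ∧
        Q.val (dS g) g.natDegree g = 0) (C1 * tot R θ ω X P x1 x2) := by
    intro l pen h1 h2 h3
    refine few_mono (fun _ h => h) ?_ (hC X hXc P x1 x2 t l pen hP1 hx2 hx21 hx1 ω ζ0' ζ1' hgen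
      hRep' g _ _ r2 hcrv (by omega) (by omega) (by omega) h2 hcf' h3)
    have h4 : Cc ≤ C1 := by
      have h5 := abs_nonneg Cf
      have h6 : (0 : ℝ) ≤ n0 := by positivity
      linarith
    gcongr
  have hpen := pen_zero (P := P) (n2 := g.natDegree) hX1 hCh hz2
    (hH (dS g) g.natDegree r2 g (by omega) (by omega) hdg ((hN K g hirrg θ).1 hs1) hr1)
  rcases hcov t ht1 ht2 (dS g) g.natDegree r2 hs1 hm hz1 hr3 hz2 hz3 hz4 with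
    h | ⟨h7', ⟨c, hc, hc1, hc2, hc3⟩, h⟩ | ⟨h7', e1, e2, e3, k0, k1, k2, k3⟩
  · exact hfin _ _ (tot0 hX0') h hpen
  · exact hfin _ _ (tot1 hX0' (Or.inr ⟨h7', c, hc, g, hg0, dg_mono hdg (by omega) (by omega),
      hB.ord_mono K ω θ _ _ _ hc3 hr1⟩)) h hpen
  · rw [e1, e2, e3] at hfin hpen
    rw [e1, e2] at hdg ⊢
    have hc0 : 1 / Ch ≤ 1 := by rw [div_le_one (by linarith)]; exact hCh
    have hbad : ∀ i : Fin 3, (∀ a k, |((cf g a k : ℤ) : ℝ)| ≤ X ^ lev i) →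
        X ^ R.l1 P x1 x2 (lev i) ≤ tot R θ ω X P x1 x2 := fun i h =>
      tot2 hX0' i ⟨h7', g, prim hirrg hz1, hdg, ho, h⟩
    by_cases b0 : ∀ a k, |((cf g a k : ℤ) : ℝ)| ≤ X ^ lev 0
    · exact hfin _ _ (hbad 0 b0) k0 hpen
    by_cases b1 : ∀ a k, |((cf g a k : ℤ) : ℝ)| ≤ X ^ lev 1
    · exact hfin _ _ (hbad 1 b1) k1 (pen_big hX1 hc0 hx21 hdg b0)
    by_cases b2 : ∀ a k, |((cf g a k : ℤ) : ℝ)| ≤ X ^ lev 2
    · exact hfin _ _ (hbad 2 b2) k2 (pen_big hX1 hc0 hx21 hdg b1)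
    · exact hfin _ _ (tot0 hX0') k3 (pen_big hX1 hc0 hx21 hdg b2)

end Pool.Agent.MP_542436_nt.H2
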