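import Pool.Agent.MP_542436_nt.Sp.Spec

set_option autoImplicit false

namespace Pool.Agent.MP_542436_nt.H2

open Polynomial NumberField Finset Pool.Agent.MP_542436_nt.Sp

theorem few_mono {K : Type} [Field K] {H H' : Pt K → Prop} {N N' : ℝ} (h : ∀ Q, H Q → H' Q)
    (hN : N ≤ N') (hf : FewPt H' N) : FewPt H N' := by
  intro E hE
  refine le_trans (hf E fun e he => ?_) hN
  obtain ⟨Q, hQ, rfl⟩ := hE e he
  exact ⟨Q, h Q hQ, rfl⟩

theorem few_union {K : Type} [Field K] {ι : Type} (L : Finset ι) {H : Pt K → Prop}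
    {H' : ι → Pt K → Prop} {N : ℝ} (h : ∀ Q, H Q → ∃ g ∈ L, H' g Q)
    (hf : ∀ g ∈ L, FewPt (H' g) N) : FewPt H (L.card * N) := by
  classical
  intro E hE
  have hsub : E ⊆ L.biUnion fun g => E.filter fun e => ∃ Q : Pt K, H' g Q ∧ (Q.a, Q.b) = e := by
    intro e he
    obtain ⟨Q, hQ, rfl⟩ := hE e he
    obtain ⟨g, hg, hQ'⟩ := h Q hQ
    exact mem_biUnion.2 ⟨g, hg, mem_filter.2 ⟨he, Q, hQ', rfl⟩⟩
  have h1 := (card_le_card hsub).trans card_biUnion_le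
  have h2 : (E.card : ℝ) ≤ ∑ g ∈ L,
      ((E.filter fun e => ∃ Q : Pt K, H' g Q ∧ (Q.a, Q.b) = e).card : ℝ) := by
    exact_mod_cast h1
  refine h2.trans ?_
  rw [← nsmul_eq_mul]
  exact sum_le_card_nsmul _ _ _ fun g hg => hf g hg _ fun e he => (mem_filter.1 he).2

theorem cf_ext {R : Type} [CommRing R] {f : R[X][X]} (h : ∀ i k, cf f i k = 0) : f = 0 := by
  ext k i
  simpa [cf] using h i k

theorem exists_cf {R : Type} [CommRing R] {f : R[X][X]} (h : f ≠ 0) : ∃ i k, cf f i k ≠ 0 := by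
  by_contra hc
  push Not at hc
  exact h (cf_ext hc)

theorem up_ne (hB : BaseStmt) (L : Type) [Field L] [CharZero L] {g : ℤ[X][X]} (hg : g ≠ 0) :
    up L g ≠ 0 := by
  intro h
  apply hg
  refine cf_ext fun i k => ?_
  have := hB.cf_up L g i k
  rw [h] at this
  have h0 : ((cf g i k : ℤ) : L) = 0 := by rw [← this]; simp [cf]
  exact_mod_cast h0

theorem prim {g : ℤ[X][X]} (hg : Irreducible g) (hn : 1 ≤ g.natDegree) (κ : ℤ)
    (h : ∀ i k, κ ∣ cf g i k) : IsUnit κ := by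
  have hd : (C (C κ) : ℤ[X][X]) ∣ g := by
    rw [C_dvd_iff_dvd_coeff]
    intro k
    rw [C_dvd_iff_dvd_coeff]
    intro i
    exact h i k
  obtain ⟨g', rfl⟩ := hd
  rcases hg.isUnit_or_isUnit rfl with h1 | h1
  · exact isUnit_C.1 (isUnit_C.1 h1)
  · exfalso
    have h2 := natDegree_eq_zero_of_isUnit h1
    have h3 := natDegree_C_mul_le (C κ : ℤ[X]) g'
    omega

theorem dg_mono {R : Type} [CommRing R] {M N M' N' : ℕ} {f : R[X][X]} (h : Dg M N f) (h1 : M ≤ M')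
    (h2 : N ≤ N') : Dg M' N' f := fun i k hc =>
  ⟨lt_of_lt_of_le (h i k hc).1 h1, lt_of_lt_of_le (h i k hc).2 h2⟩

theorem pair_eq {a b a' b' : ℤ} (h : Int.gcd a b = 1) (h' : Int.gcd a' b' = 1) (hb : b ≠ 0)
    (hb' : b' ≠ 0) (e : (a : ℚ) / b = (a' : ℚ) / b') (hs : (0 < b) = (0 < b')) :
    (a, b) = (a', b') := by
  have e1 : a * b' = a' * b := by
    have hb1 : (b : ℚ) ≠ 0 := by exact_mod_cast hb
    have hb2 : (b' : ℚ) ≠ 0 := by exact_mod_cast hb'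
    rw [div_eq_div_iff hb1 hb2] at e
    exact_mod_cast e
  have c1 : IsCoprime a b := Int.isCoprime_iff_gcd_eq_one.2 h
  have c2 : IsCoprime a' b' := Int.isCoprime_iff_gcd_eq_one.2 h'
  have d1 : b ∣ b' := c1.symm.dvd_of_dvd_mul_left ⟨a', by rw [e1]; ring⟩
  have d2 : b' ∣ b := c2.symm.dvd_of_dvd_mul_left ⟨a, by rw [← e1]; ring⟩
  have hbb : b = b' := by
    have h3 := Int.natAbs_eq_natAbs_iff.1 (Nat.dvd_antisymm (Int.natAbs_dvd_natAbs.2 d1)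
      (Int.natAbs_dvd_natAbs.2 d2))
    rcases h3 with h3 | h3
    · exact h3
    · exfalso
      have hs' : (0 < b) ↔ (0 < b') := by rw [hs]
      omega
  subst hbb
  rw [mul_right_cancel₀ hb e1]

theorem few_flat (hB : BaseStmt) {K : Type} [Field K] {g : ℤ[X][X]} (hg : g ≠ 0) (h0 : dS g = 0) :
    FewPt (fun Q : Pt K => Int.gcd Q.a Q.b = 1 ∧ Q.b ≠ 0 ∧
      (up ℚ g).evalEval ((Q.x : ℚ) / Q.y) ((Q.a : ℚ) / Q.b) = 0) (2 * g.natDegree) := by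
  classical
  have hd : Dg 1 (g.natDegree + 1) g := (hB.dg_iff ℤ 0 g.natDegree g).2 ⟨h0.le, le_rfl⟩
  set G : ℚ[X] := (up ℚ g).map (evalRingHom 0) with hG
  have hc : ∀ k, (up ℚ g).coeff k = C ((cf g 0 k : ℤ) : ℚ) := by
    intro k
    ext i
    have := hB.cf_up ℚ g i k
    simp only [cf] at this
    rw [this, coeff_C]
    split_ifs with hi
    · subst hi; rfl
    · have : cf g i k = 0 := by
        by_contra hne
        have := (hd i k hne).1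
        omega
      simp only [cf] at this
      rw [this]; simp
  have hup : up ℚ g = G.map C := by
    ext k i
    rw [coeff_map, hG, coeff_map, hc]
    simp
  have hG0 : G ≠ 0 := by
    intro h
    apply up_ne hB ℚ hg
    rw [hup, h, Polynomial.map_zero]
  have hGd : G.natDegree ≤ g.natDegree :=
    natDegree_map_le.trans natDegree_map_le
  intro E hE
  have hmap : ∀ e ∈ E, (((e.1 : ℚ) / e.2, decide (0 < e.2)) : ℚ × Bool) ∈
      G.roots.toFinset ×ˢ (univ : Finset Bool) := by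
    intro e he
    obtain ⟨Q, ⟨-, -, h3⟩, rfl⟩ := hE e he
    rw [hup, evalEval_map_C] at h3
    exact mem_product.2 ⟨by simp [hG0, h3], mem_univ _⟩
  have hinj : Set.InjOn (fun e : ℤ × ℤ => (((e.1 : ℚ) / e.2, decide (0 < e.2)) : ℚ × Bool)) E := by
    intro e he e' he' hee
    obtain ⟨Q, ⟨h1, h2, -⟩, rfl⟩ := hE e he
    obtain ⟨Q', ⟨h1', h2', -⟩, rfl⟩ := hE e' he'
    simp only [Prod.mk.injEq, decide_eq_decide] at hee
    exact pair_eq h1 h1' h2 h2' hee.1 (propext hee.2)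
  have h1 := card_le_card_of_injOn _ hmap hinj
  rw [card_product, card_univ, Fintype.card_bool] at h1
  have h2 : G.roots.toFinset.card ≤ g.natDegree :=
    (Multiset.toFinset_card_le _).trans ((card_roots' G).trans hGd)
  have h3 : E.card ≤ 2 * g.natDegree := by omega
  exact_mod_cast h3

theorem fac_le (hB : BaseStmt) (hV : ValStmt) (m0 n0 : ℕ) : ∃ C : ℝ, 1 ≤ C ∧
    ∀ (f g : ℤ[X][X]) (W : ℝ), f ≠ 0 → Dg (m0 + 1) (n0 + 1) f → g ∣ f →
      (∀ i k, |((cf f i k : ℤ) : ℝ)| ≤ W) →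
      dS g ≤ m0 ∧ g.natDegree ≤ n0 ∧ ∀ i k, |((cf g i k : ℤ) : ℝ)| ≤ C * W := by
  obtain ⟨C, hC, hgel⟩ := hV.gel (m0 + n0 + 1)
  refine ⟨C, hC, ?_⟩
  rintro f g W hf hd ⟨h, rfl⟩ hW
  have hg0 : g ≠ 0 := left_ne_zero_of_mul hf
  have hh0 : h ≠ 0 := right_ne_zero_of_mul hf
  obtain ⟨h1, h2⟩ := (hB.dg_iff ℤ m0 n0 _).1 hd
  rw [hB.dS_mul ℤ g h hg0 hh0] at h1
  rw [natDegree_mul hg0 hh0] at h2
  refine ⟨by omega, by omega, fun i k => ?_⟩
  have hW0 : 0 ≤ W := (abs_nonneg _).trans (hW 0 0)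
  have hdg : Dg (dS g + 1) (g.natDegree + 1) g := (hB.dg_iff ℤ _ _ g).2 ⟨le_rfl, le_rfl⟩
  have hdh : Dg (dS h + 1) (h.natDegree + 1) h := (hB.dg_iff ℤ _ _ h).2 ⟨le_rfl, le_rfl⟩
  by_cases hz : cf g i k = 0
  · rw [hz]
    simp only [Int.cast_zero, abs_zero]
    positivity
  obtain ⟨i', k', hne⟩ := exists_cf hh0
  have h3 := hgel 1 (dS g) g.natDegree (dS h) h.natDegree g h 1 1 W (by omega) (by omega)
    (by omega) hdg hdh one_pos one_pos (fun a b _ => by simpa using hW a b) i k i' k'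
    (Nat.lt_succ_iff.1 (hdg i k hz).1) (Nat.lt_succ_iff.1 (hdh i' k' hne).1)
  simp only [one_pow, mul_one, pow_one] at h3
  have h4 : (1 : ℝ) ≤ |((cf h i' k' : ℤ) : ℝ)| := by
    have := Int.one_le_abs hne
    exact_mod_cast this
  calc |((cf g i k : ℤ) : ℝ)| ≤ |((cf g i k : ℤ) : ℝ)| * |((cf h i' k' : ℤ) : ℝ)| :=
        le_mul_of_one_le_right (abs_nonneg _) h4
    _ ≤ C * W := h3

theorem reg_facts {R : Rg} (hO : R.Ok) {P x1 x2 : ℝ} (h : R.Reg P x1 x2) :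
    3 / 2 ≤ P ∧ P ≤ 3 ∧ 0 ≤ x2 ∧ x1 ≤ 1 ∧ R.Z P + R.e0 ≤ 1 := by
  obtain ⟨h1, h2, -⟩ := hO.Z P h.p0 h.p1
  have h3 := hO.P0
  have h4 := hO.P1
  have h5 := hO.e0
  have h6 := hO.e1
  have h7 := h.p0
  have h8 := h.p1
  have h9 := h.x1z
  have h10 := h.s0
  refine ⟨by linarith, by linarith, ?_, by linarith, by linarith⟩
  rcases hO.d with hd | hd <;> rw [hd] at h10 <;> push_cast at h10 <;> linarith

theorem rep_mono {K : Type} [Field K] [NumberField K] {ω ζ0 ζ1 : K} {A B T T' : ℝ}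
    (h : Rep ω A B T ζ0 ζ1) (hT : T ≤ T') : Rep ω A B T' ζ0 ζ1 :=
  ⟨h.i0, h.i1, h.ne, h.eq, h.h0.trans hT, h.h1.trans hT⟩

/-- All incidences lie on one auxiliary curve. -/
theorem top_poly (hPD : PDivStmt) (hS : SiegelStmt) (hV : ValStmt) {K : Type} [Field K]
    [NumberField K] {d : ℕ} {θ : K} (hθ : St d θ) (m0 n0 r0 : ℕ) (η : ℝ) (hη : 0 < η)
    (hr : r0 ≤ m0) : ∃ X0 : ℝ, ∀ X : ℝ, X0 ≤ X → ∀ P x1 x2 t : ℝ, 0 ≤ x2 → x2 ≤ x1 → P ≤ 3 →
      0 ≤ P → Top d m0 n0 r0 η P x1 x2 t → ∀ ω ζ0 ζ1 : K, Rep ω (X ^ x1) (X ^ x2) (X ^ t) ζ0 ζ1 →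
      ∃ f : ℤ[X][X], f ≠ 0 ∧ Dg (m0 + 1) (n0 + 1) f ∧
        (∀ i k, |((cf f i k : ℤ) : ℝ)| ≤ X ^ (3 * r0)) ∧
        ∀ Q : Pt K, Inc θ ω X (X ^ x1) (X ^ x2) (X ^ P) Q → Q.val m0 n0 f = 0 := by
  obtain ⟨c, hc, hS⟩ := hS K d θ hθ m0 n0 r0 hr
  have hev : ∀ᶠ X : ℝ in Filter.atTop, 1 < X ∧ 1 / c < X ^ η ∧
      ((m0 : ℝ) + 1) * (n0 + 1) < X ^ η :=
    (Filter.eventually_gt_atTop 1).and
      (((tendsto_rpow_atTop hη).eventually_gt_atTop _).and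
        ((tendsto_rpow_atTop hη).eventually_gt_atTop _))
  obtain ⟨X0, hX0⟩ := Filter.eventually_atTop.1 hev
  refine ⟨X0, fun X hX P x1 x2 t hx2 hx21 hP3 hP0 hT ω ζ0 ζ1 hR => ?_⟩
  obtain ⟨hX1, hX2, hX3⟩ := hX0 X hX
  have hXp : 0 < X := by linarith
  obtain ⟨w, hw1, hw2, hw3⟩ := hT
  obtain ⟨S, hS1, hS2⟩ := hS X hX1 x1 x2 t w hx2 hx21 hw1 ω ζ0 ζ1 hR
  have hcard : 1 < S.card := by
    have h1 : X ^ η ≤ X ^ lhs d m0 n0 r0 x1 x2 t w := Real.rpow_le_rpow_of_exponent_le hX1.le hw2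
    have h2 : (1 : ℝ) < c * X ^ η := by
      rw [div_lt_iff₀ hc] at hX2
      linarith
    have h3 : (1 : ℝ) < S.card := by nlinarith
    exact_mod_cast h3
  obtain ⟨f, hfS, hf0⟩ := exists_mem_ne hcard 0
  obtain ⟨hd, hord, hnb⟩ := hS2 f hfS
  have hA : 1 ≤ X ^ x1 := Real.one_le_rpow hX1.le (by linarith)
  have hBB : 1 ≤ X ^ x2 := Real.one_le_rpow hX1.le hx2
  refine ⟨f, hf0, hd, fun i k => ?_, fun Q hQ => ?_⟩
  · by_cases hz : cf f i k = 0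
    · rw [hz]
      simp only [Int.cast_zero, abs_zero]
      positivity
    have h1 := hnb i k (Nat.lt_succ_iff.1 (hd i k hz).1)
    have h2 : |((cf f i k : ℤ) : ℝ)| ≤ X ^ w := by
      refine le_trans ?_ h1
      rw [mul_assoc]
      exact le_mul_of_one_le_right (abs_nonneg _)
        (one_le_mul_of_one_le_of_one_le (one_le_pow₀ hA) (one_le_pow₀ hBB))
    refine h2.trans ?_
    rw [← Real.rpow_natCast]
    refine Real.rpow_le_rpow_of_exponent_le hX1.le ?_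
    push_cast
    have : (0 : ℝ) ≤ r0 := by positivity
    have : (0 : ℝ) ≤ n0 := by positivity
    nlinarith
  · have h1 := hPD K d θ ω hθ X _ _ _ Q hQ m0 n0 r0 f hd hord
    have h2 := hV.val m0 n0 f _ _ _ X Q.x Q.y Q.a Q.b hnb hQ.hx hQ.hy hQ.sq.ha hQ.sq.hb
    refine Int.eq_zero_of_abs_lt_dvd h1 ?_
    have h3 : (X ^ P) ^ r0 ≤ (Q.p : ℝ) ^ r0 := pow_le_pow_left₀ (by positivity) hQ.p0 _
    have h4 : X ^ η * X ^ w * X ^ n0 ≤ (X ^ P) ^ r0 := by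
      rw [← Real.rpow_natCast X n0, ← Real.rpow_add hXp, ← Real.rpow_add hXp,
        ← Real.rpow_mul_natCast hXp.le]
      exact Real.rpow_le_rpow_of_exponent_le hX1.le (by linarith)
    have h5 : ((m0 : ℝ) + 1) * (n0 + 1) * X ^ w * X ^ n0 < X ^ η * X ^ w * X ^ n0 := by
      gcongr
    have h6 : |((Q.val m0 n0 f : ℤ) : ℝ)| < (Q.p : ℝ) ^ r0 := by
      unfold Pt.val
      linarith
    exact_mod_cast h6

end Pool.Agent.MP_542436_nt.H2
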